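import Pool.Agent.K1H34.HYC.Stm

/-! The labelling of the classes: S_GCL -> S_POP -> S_A2. -/

set_option autoImplicit false
set_option linter.unusedSectionVars false
open Classical Finset

namespace Pool.Agent.K1H93.HYC

open Pool.Agent.K1H34.HYC

theorem near_card (p k N : ℕ) : ((range N).filter (fun l => near p l k)).card ≤ 2 * p := by
  have h : (range N).filter (fun l => near p l k) ⊆ Finset.Ico (k + 1 - p) (k + p) := by
    intro l hl
    obtain ⟨-, h1, h2⟩ := Finset.mem_filter.1 hl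
    rw [Finset.mem_Ico]
    omega
  refine (card_le_card h).trans ?_
  rw [Nat.card_Ico]
  omega

theorem row_le {X : Type} (P B : Finset (X × ℕ)) (x : X) (h : ∀ z ∈ P, z.1 = x → z ∈ B) :
    row P x ≤ B.card := by
  unfold row
  refine card_le_card fun z hz => ?_
  obtain ⟨h1, h2⟩ := Finset.mem_filter.1 hz
  exact h z h1 h2

section
variable {V : Type} [Fintype V] {G : SimpleGraph V} {I S Z : Finset V} {K : V → Finset V}
  {q : V → V} {D : ℕ}

theorem mem_cls {u z : V} : z ∈ cls Z q u ↔ z ∈ Z ∧ q z = u := by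
  simp [cls]

theorem card_adj (hdeg : ∀ v, dg G univ v ≤ D) (v : V) :
    (univ.filter (fun y => G.Adj v y)).card ≤ D := hdeg v

theorem CN_card (hdeg : ∀ v, dg G univ v ≤ D) (u : V) :
    (CN G Z q u).card ≤ (cls Z q u).card * D := by
  have h : CN G Z q u ⊆ (cls Z q u).biUnion (fun z => univ.filter (fun y => G.Adj z y)) := by
    intro v hv
    simp only [CN, mem_filter, mem_univ, true_and] at hv
    obtain ⟨z, hz, ha⟩ := hv
    simp only [mem_biUnion, mem_filter, mem_univ, true_and]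
    exact ⟨z, hz, ha⟩
  refine (card_le_card h).trans ?_
  exact card_biUnion_le_card_mul _ _ _ fun z _ => hdeg z

/-- the weight of the class of `u` at the cluster `i` -/
noncomputable def WW (G : SimpleGraph V) (I : Finset V) (K : V → Finset V) (Z : Finset V)
    (q : V → V) (i u : V) : ℕ :=
  if i ∈ I ∧ ∀ z ∈ cls Z q u, z ∉ K i then ((K i).filter (fun v => v ∈ CN G Z q u)).card else 0

theorem WW_sum_i (hdisj : ∀ i ∈ I, ∀ j ∈ I, i ≠ j → Disjoint (K i) (K j)) (u : V) :
    ∑ i, WW G I K Z q i u ≤ (CN G Z q u).card := by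
  have h1 : ∑ i, WW G I K Z q i u ≤ ∑ i ∈ I, ((K i).filter (fun v => v ∈ CN G Z q u)).card := by
    rw [← Finset.sum_subset (Finset.subset_univ I)]
    · refine Finset.sum_le_sum fun i _ => ?_
      unfold WW
      split_ifs
      · exact le_rfl
      · exact Nat.zero_le _
    · intro i _ hi
      unfold WW
      rw [if_neg (fun h => hi h.1)]
  refine h1.trans ?_
  rw [← Finset.card_biUnion]
  · refine card_le_card ?_
    intro v hv
    simp only [mem_biUnion, mem_filter] at hv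
    obtain ⟨i, _, _, h⟩ := hv
    exact h
  · intro i hi j hj hij
    exact Finset.disjoint_filter_filter (hdisj i hi j hj hij)

theorem dc (A B : Finset V) : ∑ z ∈ A, dg G B z = ∑ v ∈ B, dg G A v := by
  have h := Finset.sum_card_bipartiteAbove_eq_sum_card_bipartiteBelow (s := A) (t := B)
    (fun a b => G.Adj a b)
  unfold Finset.bipartiteAbove Finset.bipartiteBelow at h
  unfold dg
  refine (Eq.trans ?_ h).trans ?_
  · refine Finset.sum_congr rfl fun v _ => ?_
    congr 1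
  · refine Finset.sum_congr rfl fun v _ => ?_
    congr 1
    ext a
    simp only [Finset.mem_filter]
    rw [G.adj_comm a v]

theorem WW_sum_u (i : V) :
    ∑ x : {u : V // u ∈ Z ∧ q u = u}, WW G I K Z q i x.1 ≤ ∑ v ∈ K i, dg G (univ \ K i) v := by
  rw [← dc]
  have h1 : ∀ x : {u : V // u ∈ Z ∧ q u = u}, WW G I K Z q i x.1 ≤
      ∑ z ∈ (cls Z q x.1).filter (fun z => z ∉ K i), dg G (K i) z := by
    intro x
    unfold WW
    split_ifs with h
    · have h2 : (K i).filter (fun v => v ∈ CN G Z q x.1) ⊆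
          ((cls Z q x.1).filter (fun z => z ∉ K i)).biUnion
            (fun z => (K i).filter (fun y => G.Adj z y)) := by
        intro v hv
        simp only [mem_filter, CN, mem_univ, true_and] at hv
        obtain ⟨hv1, z, hz, ha⟩ := hv
        simp only [mem_biUnion, mem_filter]
        exact ⟨z, ⟨hz, h.2 z hz⟩, hv1, ha⟩
      exact (card_le_card h2).trans card_biUnion_le
    · exact Nat.zero_le _
  refine (Finset.sum_le_sum fun x _ => h1 x).trans ?_
  rw [← Finset.sum_biUnion]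
  · refine Finset.sum_le_sum_of_subset ?_
    intro z hz
    simp only [mem_biUnion, mem_filter, mem_univ, true_and] at hz
    obtain ⟨_, _, h⟩ := hz
    simp [h]
  · intro x _ y _ hxy
    rw [Function.onFun, Finset.disjoint_left]
    intro z hz hz'
    simp only [mem_filter, mem_cls] at hz hz'
    exact hxy (Subtype.ext (hz.1.2.symm.trans hz'.1.2))

/-- the pairs (class, label) near the colour of an edge at `x` -/
noncomputable def PL (G : SimpleGraph V) (c : V → V → ℕ) (p D : ℕ) (Z : Finset V) (q : V → V)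
    (x : V) : Finset ({u : V // u ∈ Z ∧ q u = u} × ℕ) :=
  ((univ : Finset {u : V // u ∈ Z ∧ q u = u}) ×ˢ range (D + 1)).filter
    (fun z => ∃ y ∈ cls Z q z.1.1, G.Adj x y ∧ near p z.2 (c x y))

theorem mem_PL {c : V → V → ℕ} {p : ℕ} {x : V} {z : {u : V // u ∈ Z ∧ q u = u} × ℕ} :
    z ∈ PL G c p D Z q x ↔
      z.2 < D + 1 ∧ ∃ y ∈ cls Z q z.1.1, G.Adj x y ∧ near p z.2 (c x y) := by
  simp [PL]

theorem fib_card (k p N : ℕ) (a : V) :
    (((univ : Finset {u : V // u ∈ Z ∧ q u = u}) ×ˢ range N).filter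
      (fun z => a = z.1.1 ∧ near p z.2 k)).card ≤ 2 * p := by
  refine le_trans ?_ (near_card p k N)
  refine Finset.card_le_card_of_injOn Prod.snd ?_ ?_
  · intro z hz
    have hz' := Finset.mem_filter.1 (Finset.mem_coe.1 hz)
    refine Finset.mem_coe.2 (Finset.mem_filter.2 ⟨(Finset.mem_product.1 hz'.1).2, hz'.2.2⟩)
  · intro z hz z' hz' h
    have h1 := (Finset.mem_filter.1 (Finset.mem_coe.1 hz)).2.1
    have h2 := (Finset.mem_filter.1 (Finset.mem_coe.1 hz')).2.1
    exact Prod.ext (Subtype.ext (h1.symm.trans h2)) h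

theorem PL_card (hdeg : ∀ v, dg G univ v ≤ D) (c : V → V → ℕ) (p : ℕ) (x : V) :
    (PL G c p D Z q x).card ≤ D * (2 * p) := by
  have h : PL G c p D Z q x ⊆ (univ.filter (fun y => G.Adj x y)).biUnion (fun y =>
      ((univ : Finset {u : V // u ∈ Z ∧ q u = u}) ×ˢ range (D + 1)).filter
        (fun z => q y = z.1.1 ∧ near p z.2 (c x y))) := by
    intro z hz
    obtain ⟨h1, y, hy, ha, hn⟩ := mem_PL.1 hz
    refine Finset.mem_biUnion.2 ⟨y, Finset.mem_filter.2 ⟨Finset.mem_univ _, ha⟩, ?_⟩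
    refine Finset.mem_filter.2 ⟨Finset.mem_product.2 ⟨Finset.mem_univ _, Finset.mem_range.2 h1⟩,
      (mem_cls.1 hy).2, hn⟩
  refine (card_le_card h).trans ?_
  refine (card_biUnion_le_card_mul _ _ (2 * p) fun y _ => fib_card _ _ _ _).trans ?_
  exact Nat.mul_le_mul_right _ (hdeg x)

theorem PL_row (c : V → V → ℕ) (p : ℕ) (x : V) (u : {u : V // u ∈ Z ∧ q u = u}) :
    row (PL G c p D Z q x) u ≤ dg G (cls Z q u.1) x * (2 * p) := by
  refine (row_le _ (((cls Z q u.1).filter (fun y => G.Adj x y)).biUnion (fun y =>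
      ((univ : Finset {u : V // u ∈ Z ∧ q u = u}) ×ˢ range (D + 1)).filter
        (fun z => q y = z.1.1 ∧ near p z.2 (c x y)))) u ?_).trans ?_
  · intro z hz hzu
    obtain ⟨h1, y, hy, ha, hn⟩ := mem_PL.1 hz
    rw [hzu] at hy
    refine Finset.mem_biUnion.2 ⟨y, Finset.mem_filter.2 ⟨hy, ha⟩, ?_⟩
    refine Finset.mem_filter.2 ⟨Finset.mem_product.2 ⟨Finset.mem_univ _, Finset.mem_range.2 h1⟩,
      ?_, hn⟩
    rw [hzu]
    exact (mem_cls.1 hy).2
  · exact card_biUnion_le_card_mul _ _ (2 * p) fun y _ => fib_card _ _ _ _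

theorem dg_cls_sum (hdeg : ∀ v, dg G univ v ≤ D) (A : Finset V) :
    ∑ x, dg G A x ≤ A.card * D := by
  rw [dc]
  refine (Finset.sum_le_card_nsmul _ _ D fun v _ => hdeg v).trans ?_
  rw [smul_eq_mul]

/-- numbers -/
theorem num1 (p D : ℕ) (hp : 1 ≤ p) :
    ((2 ^ 122 * D * (2 * p) : ℕ) : ℝ) * (1 / 2) ^ (200 * p) ≤ D / 2 ^ 68 := by
  have h1 : 2 * p ≤ 2 ^ (p + 1) := by
    have := Nat.lt_two_pow_self (n := p)
    rw [pow_succ]
    omega
  have h2 : (2 : ℝ) ^ 190 * (2 * p) ≤ 2 ^ (200 * p) := by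
    calc (2 : ℝ) ^ 190 * (2 * p) ≤ 2 ^ 190 * 2 ^ (p + 1) := by
          refine mul_le_mul_of_nonneg_left ?_ (by positivity)
          exact_mod_cast h1
      _ = 2 ^ (190 + (p + 1)) := by rw [pow_add 2 190]
      _ ≤ 2 ^ (200 * p) := pow_le_pow_right₀ (by norm_num) (by omega)
  rw [one_div, inv_pow, ← div_eq_mul_inv, div_le_div_iff₀ (by positivity) (by positivity)]
  have h3 : (0 : ℝ) ≤ D := Nat.cast_nonneg D
  have e : ((2 ^ 122 * D * (2 * p) : ℕ) : ℝ) * 2 ^ 68 = (D : ℝ) * (2 ^ 190 * (2 * p)) := by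
    push_cast
    ring
  rw [e]
  exact mul_le_mul_of_nonneg_left h2 h3

set_option exponentiation.threshold 1000 in
theorem num2 (D : ℕ) (hD : 1 ≤ D) :
    ((D : ℝ) + 1) * 2 ^ (119 + 122 + 2) / 2 ^ 330 ≤ D / 2 ^ 68 := by
  have h : (1 : ℝ) ≤ D := by exact_mod_cast hD
  rw [div_le_div_iff₀ (by positivity) (by positivity)]
  norm_num
  linarith

set_option exponentiation.threshold 1000 in
theorem num3 (D : ℕ) (hD : 1 ≤ D) :
    (((61 + 7) * 2 ^ (61 + 7) + 1 : ℕ) : ℝ) * ((2 * (330 : ℕ) + 6) * D / 2 ^ 119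
      + 2 * ((D : ℝ) ^ 2 / 2 ^ 590) / D) ≤ D / 2 ^ 10 := by
  have h : (0 : ℝ) < D := by exact_mod_cast hD
  have e : 2 * ((D : ℝ) ^ 2 / 2 ^ 590) / D = D * (2 / 2 ^ 590) := by
    field_simp
  rw [e]
  have e2 : (((61 + 7) * 2 ^ (61 + 7) + 1 : ℕ) : ℝ) * ((2 * (330 : ℕ) + 6) * D / 2 ^ 119
      + D * (2 / 2 ^ 590)) = D * ((((61 + 7) * 2 ^ (61 + 7) + 1 : ℕ) : ℝ) *
        ((2 * (330 : ℕ) + 6) / 2 ^ 119 + 2 / 2 ^ 590)) := by ring
  rw [e2, div_eq_mul_one_div (D : ℝ)]
  refine mul_le_mul_of_nonneg_left ?_ h.le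
  norm_num

/-- the graph of the classes -/
def Gr (G : SimpleGraph V) (I : Finset V) (K : V → Finset V) (Z : Finset V) (q : V → V) :
    SimpleGraph {u : V // u ∈ Z ∧ q u = u} where
  Adj a b := Rel G I K Z q a.1 b.1
  symm := by
    constructor
    rintro a b ⟨_, _, h3, h4⟩
    refine ⟨a.2.1, a.2.2, h3.symm, ?_⟩
    rcases h4 with ⟨z, hz, z', hz', ha⟩ | ⟨i, hi, ⟨z, hz⟩, ⟨z', hz'⟩⟩
    · exact Or.inl ⟨z', hz', z, hz, ha.symm⟩
    · exact Or.inr ⟨i, hi, ⟨z', hz'⟩, ⟨z, hz⟩⟩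
  loopless := ⟨fun a h => h.2.2.1 rfl⟩

theorem Gr_dg (x : {u : V // u ∈ Z ∧ q u = u}) :
    dg (Gr G I K Z q) univ x ≤ (univ.filter (fun u' => Rel G I K Z q x.1 u')).card := by
  unfold dg
  refine Finset.card_le_card_of_injOn Subtype.val ?_ Subtype.val_injective.injOn
  intro y hy
  exact Finset.mem_coe.2 (mem_filter.2 ⟨mem_univ _, (mem_filter.1 (mem_coe.1 hy)).2⟩)

/-- the list of the class of `x` -/
noncomputable def LL (G : SimpleGraph V) (S Z : Finset V) (q : V → V) (D : ℕ) (f1 : V → ℕ)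
    (x : {u : V // u ∈ Z ∧ q u = u}) : Finset ℕ :=
  range (D + 1) \ ((S.filter (fun v => v ∈ CN G Z q x.1)).image f1)

theorem LL_card (f1 : V → ℕ) (x : {u : V // u ∈ Z ∧ q u = u}) :
    D + 1 ≤ (LL G S Z q D f1 x).card + (S.filter (fun v => v ∈ CN G Z q x.1)).card := by
  unfold LL
  have h1 := Finset.le_card_sdiff ((S.filter (fun v => v ∈ CN G Z q x.1)).image f1)
    (range (D + 1))
  have h2 : ((S.filter (fun v => v ∈ CN G Z q x.1)).image f1).card ≤
    (S.filter (fun v => v ∈ CN G Z q x.1)).card := Finset.card_image_le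
  rw [Finset.card_range] at h1
  omega

theorem card_sum_filter {A B : Type} [Fintype A] [Fintype B] (p : A ⊕ B → Prop)
    [DecidablePred p] :
    (univ.filter p).card = (univ.filter (fun a => p (Sum.inl a))).card +
      (univ.filter (fun b => p (Sum.inr b))).card := by
  rw [Finset.card_filter, Fintype.sum_sum_type, ← Finset.card_filter, ← Finset.card_filter]

theorem row_ne {X : Type} {P : Finset (X × ℕ)} {x : X} (h : row P x ≠ 0) :
    ∃ z ∈ P, z.1 = x := by
  unfold row at h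
  obtain ⟨z, hz⟩ := Finset.card_pos.1 (Nat.pos_of_ne_zero h)
  exact ⟨z, Finset.mem_filter.1 hz⟩

theorem ne_card {A : Type} [Fintype A] (w : A → ℕ) :
    (univ.filter (fun a => w a ≠ 0)).card ≤ ∑ a, w a := by
  rw [Finset.card_eq_sum_ones]
  refine le_trans ?_ (Finset.sum_le_sum_of_subset (Finset.subset_univ
    (univ.filter (fun a => w a ≠ 0))))
  refine Finset.sum_le_sum fun a ha => ?_
  exact Nat.one_le_iff_ne_zero.2 (Finset.mem_filter.1 ha).2

theorem PL_touch (c : V → V → ℕ) (p : ℕ) (u : {u : V // u ∈ Z ∧ q u = u}) :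
    (univ.filter (fun v => row (PL G c p D Z q v) u ≠ 0)).card ≤ (CN G Z q u.1).card := by
  refine card_le_card fun v hv => ?_
  obtain ⟨z, hz, hzu⟩ := row_ne (Finset.mem_filter.1 hv).2
  obtain ⟨_, y, hy, ha, _⟩ := mem_PL.1 hz
  rw [hzu] at hy
  simp only [CN, mem_filter, mem_univ, true_and]
  exact ⟨y, hy, ha.symm⟩

theorem dg_le_card (A : Finset V) (x : V) : dg G A x ≤ A.card := by
  unfold dg
  exact Finset.card_filter_le _ _

theorem load_le (c : V → V → ℕ) (p N : ℕ) (hq : ∀ z ∈ Z, q z ∈ Z ∧ q (q z) = q z)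
    (hsz : ∀ u, (cls Z q u).card ≤ N)
    (g0 : {u : V // u ∈ Z ∧ q u = u} → ℕ) (f : V → ℕ) (hg0 : ∀ u, g0 u < D + 1)
    (hf : ∀ z ∈ Z, ∀ h : q z ∈ Z ∧ q (q z) = q z, f z = g0 ⟨q z, h⟩) (x : V) :
    load G c p Z f x ≤ hits (PL G c p D Z q x) univ g0 * N := by
  unfold load hits
  have h : Z.filter (fun y => G.Adj x y ∧ near p (f y) (c x y)) ⊆
      (univ.filter (fun u : {u : V // u ∈ Z ∧ q u = u} => (u, g0 u) ∈ PL G c p D Z q x)).biUnion
        (fun u => cls Z q u.1) := by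
    intro z hz
    obtain ⟨hz1, ha, hn⟩ := Finset.mem_filter.1 hz
    rw [hf z hz1 (hq z hz1)] at hn
    refine Finset.mem_biUnion.2 ⟨⟨q z, hq z hz1⟩, Finset.mem_filter.2 ⟨Finset.mem_univ _, ?_⟩, ?_⟩
    · exact mem_PL.2 ⟨hg0 _, z, mem_cls.2 ⟨hz1, rfl⟩, ha, hn⟩
    · exact mem_cls.2 ⟨hz1, rfl⟩
  refine (card_le_card h).trans ?_
  refine (card_biUnion_le_card_mul _ (fun u : {u : V // u ∈ Z ∧ q u = u} => cls Z q u.1) N
    fun u _ => hsz u.1).trans (le_of_eq ?_)
  congr!

theorem pop_le (g0 : {u : V // u ∈ Z ∧ q u = u} → ℕ) (f : V → ℕ)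
    (hf : ∀ z ∈ Z, ∀ h : q z ∈ Z ∧ q (q z) = q z, f z = g0 ⟨q z, h⟩) (i : V) (hi : i ∈ I) (l : ℕ) :
    ∑ u ∈ Z.filter (fun u => q u = u ∧ f u = l ∧ ∀ z ∈ cls Z q u, z ∉ K i),
      ((K i).filter (fun v => v ∈ CN G Z q u)).card ≤
    ∑ x ∈ univ.filter (fun x => g0 x = l), WW G I K Z q i x.1 := by
  have h1 : ∑ u ∈ Z.filter (fun u => q u = u ∧ f u = l ∧ ∀ z ∈ cls Z q u, z ∉ K i),
      ((K i).filter (fun v => v ∈ CN G Z q u)).card =
    ∑ u ∈ Z.filter (fun u => q u = u ∧ f u = l ∧ ∀ z ∈ cls Z q u, z ∉ K i),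
      WW G I K Z q i u := by
    refine Finset.sum_congr rfl fun u hu => ?_
    unfold WW
    rw [if_pos ⟨hi, (Finset.mem_filter.1 hu).2.2.2⟩]
  have h2 : ∑ x ∈ univ.filter (fun x => g0 x = l), WW G I K Z q i x.1 =
      ∑ u ∈ (univ.filter (fun x => g0 x = l)).map (Function.Embedding.subtype _),
        WW G I K Z q i u := by
    rw [Finset.sum_map]
    rfl
  rw [h1, h2]
  refine Finset.sum_le_sum_of_subset ?_
  intro u hu
  obtain ⟨hu1, hu2, hu3, _⟩ := Finset.mem_filter.1 hu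
  have hu4 : q u ∈ Z ∧ q (q u) = q u := by rw [hu2]; exact ⟨hu1, hu2⟩
  refine Finset.mem_map.2 ⟨⟨u, hu1, hu2⟩, Finset.mem_filter.2 ⟨Finset.mem_univ _, ?_⟩, rfl⟩
  rw [← hu3, hf u hu1 hu4]
  congr 1
  exact Subtype.ext hu2.symm

end

theorem t_A2 : S_GCL → S_POP → S_A2 := by
  intro hG hP
  obtain ⟨D1, hD1⟩ := hG 61 61
  obtain ⟨D2, hD2⟩ := exists_nat_ge (Real.exp (2 ^ 124))
  refine ⟨((61 + 7) * 2 ^ (61 + 7) + 1) * 200 * 2 ^ 122, max D1 D2, ?_⟩
  intro D hD p hp hpl V _ G c I K S Z q hdeg hc hcs hg f1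
  have hDD1 : D1 ≤ D := (le_max_left _ _).trans hD
  have hDD2 : D2 ≤ D := (le_max_right _ _).trans hD
  have hexp : Real.exp (2 ^ 124) ≤ D := hD2.trans (by exact_mod_cast hDD2)
  have hDpos : (0 : ℝ) < D := (Real.exp_pos _).trans_le hexp
  have hlog : (2 : ℝ) ^ 124 ≤ Real.log D := by
    rw [Real.le_log_iff_exp_le hDpos]
    exact hexp
  have hDlog : Real.log D ≤ D := (Real.log_le_sub_one_of_pos hDpos).trans (by linarith)
  have hDb : (2 : ℝ) ^ 124 ≤ D := hlog.trans hDlog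
  have hDbn : 2 ^ 124 ≤ D := by exact_mod_cast hDb
  have hD1' : 1 ≤ D := le_trans (by norm_num) hDbn
  have h2p : 2 * p ≤ D := by
    have h1 := Real.quadratic_le_exp_of_nonneg
      (show (0 : ℝ) ≤ Real.log D from le_trans (by norm_num) hlog)
    rw [Real.exp_log hDpos] at h1
    have h2 : (2 : ℝ) * p ≤ D := by
      have h3 : (4 : ℝ) ≤ Real.log D := le_trans (by norm_num) hlog
      nlinarith
    exact_mod_cast h2
  -- popularity
  obtain ⟨P', r', hr1, hPD, hPW, hrow, htouch, hsum, hpop⟩ :=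
    hP 119 122 330 D {u : V // u ∈ Z ∧ q u = u} V (fun i x => WW G I K Z q i x.1)
      ((D : ℝ) ^ 2 / 2 ^ 590) hD1' (by norm_num)
      (by
        intro i x
        unfold WW
        split_ifs with h
        · exact hg.smallZ x.1 x.2.1 x.2.2 i h.1 h.2
        · rw [Nat.cast_zero]
          positivity)
      (by
        intro x
        exact (WW_sum_i hg.disj x.1).trans ((CN_card hdeg x.1).trans
          (Nat.mul_le_mul_right _ (hg.size x.1))))
      (by
        intro i
        by_cases hi : i ∈ I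
        · refine le_trans ?_ (hg.tot i hi)
          exact_mod_cast WW_sum_u (G := G) (I := I) (Z := Z) (K := K) (q := q) i
        · have h0 : ∀ x : {u : V // u ∈ Z ∧ q u = u}, WW G I K Z q i x.1 = 0 := by
            intro x
            unfold WW
            rw [if_neg (fun h => hi h.1)]
          simp only [h0, Finset.sum_const_zero, Nat.cast_zero]
          positivity)
  have hslack : ∀ x : {u : V // u ∈ Z ∧ q u = u}, (dg (Gr G I K Z q) univ x : ℝ) + D / 2 ^ 61 ≤
      (LL G S Z q D f1 x).card := by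
    intro x
    have h1 := hg.slack x.1 x.2.1 x.2.2
    have h2 : (dg (Gr G I K Z q) univ x : ℝ) ≤
      (univ.filter (fun u' => Rel G I K Z q x.1 u')).card := by exact_mod_cast Gr_dg x
    have h3 : (D : ℝ) + 1 ≤ (LL G S Z q D f1 x).card +
      (S.filter (fun v => v ∈ CN G Z q x.1)).card := by exact_mod_cast LL_card f1 x
    linarith
  obtain ⟨g0, hg1, hg2, hg3⟩ := hD1 D hDD1 {u : V // u ∈ Z ∧ q u = u}
    (V ⊕ (V × Fin (D + 1) × Fin (D + 1))) (Gr G I K Z q) (LL G S Z q D f1)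
    (Sum.elim (fun x => PL G c p D Z q x) P') (Sum.elim (fun _ => 200 * p) r')
    (by
      intro x
      have h1 := hg.slack x.1 x.2.1 x.2.2
      have h2 : (dg (Gr G I K Z q) univ x : ℝ) ≤
        (univ.filter (fun u' => Rel G I K Z q x.1 u')).card := by exact_mod_cast Gr_dg x
      have h3 : (0 : ℝ) ≤ (S.filter (fun v => v ∈ CN G Z q x.1)).card := Nat.cast_nonneg _
      have h4 : (0 : ℝ) ≤ D / 2 ^ 61 := by positivity
      have h5 : (dg (Gr G I K Z q) univ x : ℝ) ≤ D := by linarith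
      exact_mod_cast h5)
    hslack
    (fun x => Or.inr (hslack x))
    (by
      rintro (x | o)
      · simp only [Sum.elim_inl]; omega
      · exact hr1 o)
    (by
      rintro (x | o)
      · simp only [Sum.elim_inl]
        refine (PL_card hdeg c p x).trans (Nat.mul_le_mul_left _ ?_)
        omega
      · exact hPD o)
    (by
      rintro (x | o)
      · simp only [Sum.elim_inl]
        refine (PL_card hdeg c p x).trans ?_
        calc D * (2 * p) ≤ D * D := Nat.mul_le_mul_left _ h2p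
          _ = D ^ 2 := by ring
          _ ≤ D ^ 4 := Nat.pow_le_pow_right hD1' (by norm_num)
      · simp only [Sum.elim_inr]
        have h1 := hPW o
        have h2 : (D : ℝ) ^ 2 / 2 ^ 590 ≤ (D : ℝ) ^ 4 := by
          refine (div_le_self (by positivity) (one_le_pow₀ (by norm_num))).trans ?_
          exact pow_le_pow_right₀ (by exact_mod_cast hD1') (by norm_num)
        have h3 := h1.trans h2
        exact_mod_cast h3)
    (by
      rintro (v | o) x
      · simp only [Sum.elim_inl]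
        have h1 : row (PL G c p D Z q v) x ≤ 2 ^ 122 * (2 * p) :=
          (PL_row c p v x).trans (Nat.mul_le_mul_right _ ((dg_le_card _ _).trans (hg.size x.1)))
        have h2 : (row (PL G c p D Z q v) x : ℝ) ≤ 2 ^ 122 * (2 * p) := by exact_mod_cast h1
        have hp0 : (0 : ℝ) ≤ p := Nat.cast_nonneg p
        refine h2.trans ?_
        nlinarith
      · simp only [Sum.elim_inr]
        have h1 : (row (P' o) x : ℝ) ≤ 1 := by exact_mod_cast hrow o x
        refine h1.trans ?_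
        have h3 : (1 : ℝ) ≤ Real.log D := le_trans (by norm_num) hlog
        nlinarith)
    (by
      intro x
      rw [card_sum_filter]
      simp only [Sum.elim_inl, Sum.elim_inr]
      have h0 : (CN G Z q x.1).card ≤ 2 ^ 122 * D := (CN_card hdeg x.1).trans
        (Nat.mul_le_mul_right _ (hg.size x.1))
      have h1 := (PL_touch (G := G) (D := D) c p x).trans h0
      have h2 := htouch x
      have h3 : (univ.filter (fun i => WW G I K Z q i x.1 ≠ 0)).card ≤ 2 ^ 122 * D :=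
        (ne_card _).trans ((WW_sum_i hg.disj x.1).trans h0)
      have h4 := h2.trans (Nat.mul_le_mul_left (D + 1) h3)
      refine (Nat.add_le_add h1 h4).trans ?_
      calc 2 ^ 122 * D + (D + 1) * (2 ^ 122 * D) = (2 ^ 122 * (D + 2)) * D := by ring
        _ ≤ (D * D) * D := by
            refine Nat.mul_le_mul_right _ ?_
            calc 2 ^ 122 * (D + 2) ≤ 2 ^ 124 * D := by omega
              _ ≤ D * D := Nat.mul_le_mul_right _ hDbn
        _ = D ^ 3 := by ring)
    (by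
      intro x
      rw [Fintype.sum_sum_type]
      simp only [Sum.elim_inl, Sum.elim_inr]
      have h1 : ∑ v, (row (PL G c p D Z q v) x : ℝ) * (1 / 2) ^ (200 * p) ≤ D / 2 ^ 68 := by
        rw [← Finset.sum_mul]
        refine le_trans ?_ (num1 p D hp)
        refine mul_le_mul_of_nonneg_right ?_ (by positivity)
        have h2 : ∑ v, row (PL G c p D Z q v) x ≤ 2 ^ 122 * D * (2 * p) := by
          refine (Finset.sum_le_sum fun v _ => PL_row c p v x).trans ?_
          rw [← Finset.sum_mul]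
          refine Nat.mul_le_mul_right _ ?_
          exact (dg_cls_sum hdeg _).trans (Nat.mul_le_mul_right _ (hg.size x.1))
        exact_mod_cast h2
      have h2 := (hsum x).trans (num2 D hD1')
      refine (add_le_add h1 h2).trans ?_
      have h3 : (0 : ℝ) ≤ D := hDpos.le
      norm_num
      linarith)
  -- output
  refine ⟨fun z => if h : (q z ∈ Z ∧ q (q z) = q z) then g0 ⟨q z, h⟩ else 0, ?_⟩
  have hf : ∀ z ∈ Z, ∀ h : q z ∈ Z ∧ q (q z) = q z,
      (fun z => if h : (q z ∈ Z ∧ q (q z) = q z) then g0 ⟨q z, h⟩ else 0) z = g0 ⟨q z, h⟩ := by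
    intro z _ h
    simp only
    rw [dif_pos h]
  generalize (fun z => if h : (q z ∈ Z ∧ q (q z) = q z) then g0 ⟨q z, h⟩ else 0) = f at hf
  have hlt : ∀ u, g0 u < D + 1 := by
    intro u
    have h := hg1 u
    unfold LL at h
    exact Finset.mem_range.1 (Finset.mem_sdiff.1 h).1
  refine ⟨?_, ?_, ?_, ?_, ?_, ?_⟩
  · intro z hz
    rw [hf z hz (hg.qZ z hz)]
    exact Nat.lt_succ_iff.1 (hlt _)
  · intro z hz
    have h1 := hg.qZ z hz
    have h2 := hg.qZ (q z) h1.1
    rw [hf z hz h1, hf (q z) h1.1 h2]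
    congr 1
    exact Subtype.ext h1.2.symm
  · intro z hz z' hz' ha
    have h1 := hg.qZ z hz
    have h1' := hg.qZ z' hz'
    rw [hf z hz h1, hf z' hz' h1']
    refine hg2 _ _ ?_
    refine ⟨h1'.1, h1'.2, ?_, Or.inl ⟨z, mem_cls.2 ⟨hz, rfl⟩, z', mem_cls.2 ⟨hz', rfl⟩, ha⟩⟩
    intro he
    exact hg.indep z hz z' hz' he.symm ha
  · intro z hz v hv ha he
    have h1 := hg.qZ z hz
    rw [hf z hz h1] at he
    have h := hg1 ⟨q z, h1⟩
    unfold LL at h
    refine (Finset.mem_sdiff.1 h).2 (Finset.mem_image.2 ⟨v, Finset.mem_filter.2 ⟨hv, ?_⟩, he.symm⟩)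
    simp only [CN, mem_filter, mem_univ, true_and]
    exact ⟨z, mem_cls.2 ⟨hz, rfl⟩, ha⟩
  · intro x
    refine (load_le c p (2 ^ 122) hg.qZ hg.size g0 f hlt hf x).trans ?_
    have h := hg3 (Sum.inl x)
    simp only [Sum.elim_inl] at h
    refine (Nat.mul_le_mul_right _ h).trans (le_of_eq ?_)
    ring
  · intro i hi l
    have h1 := pop_le (G := G) (I := I) (K := K) g0 f hf i hi l
    have h2 := hpop univ g0 ((61 + 7) * 2 ^ (61 + 7) + 1) (fun x _ => Nat.lt_succ_iff.1 (hlt x))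
      (fun o => hg3 (Sum.inr o)) i l
    refine le_trans ?_ (h2.trans (num3 D hD1'))
    exact_mod_cast h1

end Pool.Agent.K1H93.HYC
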